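import Mathlib

namespace Pool.Agent.Results.MP_a37b83_nt.UnitRealizers

/-- `S` is zero-sum-free: no nonempty subset of `S` has sum `0` modulo `m`. -/
def ZeroSumFree (m : ℕ) (S : Finset (ZMod m)) : Prop :=
  ∀ T ⊆ S, T.Nonempty → ∑ x ∈ T, x ≠ 0

/-- `k(m)`: the largest size of a zero-sum-free set of residues modulo `m`. -/
noncomputable def k (m : ℕ) : ℕ :=
  sSup {n | ∃ S : Finset (ZMod m), ZeroSumFree m S ∧ S.card = n}

/-- A realizing set for `m`. -/
def Realizing (m : ℕ) (S : Finset (ZMod m)) : Prop :=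
  ZeroSumFree m S ∧ S.card = k m

/-- `b(m) = ⌊(-1 + √(8m+9))/2⌋`. -/
noncomputable def b (m : ℕ) : ℕ := ⌊(-1 + Real.sqrt (8 * (m : ℝ) + 9)) / 2⌋₊

/-- The set `E`. -/
def E : Set ℕ := {m | 5 ≤ m ∧ k m = b m}

/-! ### the search -/

def stp (m N a : ℕ) : ℕ := (N ||| (N >>> a) ||| (N <<< (m - a))) % 2 ^ m

def go (m : ℕ) : ℕ → ℕ → ℕ → ℕ → Bool
  | 0, _, _, _ => true
  | _ + 1, 0, _, _ => true
  | fuel + 1, need + 1, A, N =>
    cond (Nat.beq A 0) false
      (cond (go m fuel need ((A ^^^ (1 <<< Nat.log2 A)) ^^^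
          ((A ^^^ (1 <<< Nat.log2 A)) &&& stp m N (Nat.log2 A))) (stp m N (Nat.log2 A))) true
        (go m fuel (need + 1) (A ^^^ (1 <<< Nat.log2 A)) N))

def mask (p : ℕ → Bool) : ℕ → ℕ
  | 0 => 0
  | c + 1 => if p c then mask p c ||| (1 <<< c) else mask p c

/-- search for `n` residues among those satisfying `p`. -/
def srch (m n : ℕ) (p : ℕ → Bool) : Bool := go m m n (mask (fun c => c != 0 && p c) m) 1

def Ok (m : ℕ) : ℕ → List ℕ → Prop
  | _, [] => True
  | N, a :: l => N.testBit a = false ∧ Ok m (stp m N a) l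

lemma stp_mono {m N a c : ℕ} (hc : c < m) (h : (stp m N a).testBit c = false) :
    N.testBit c = false := by
  unfold stp at h
  rw [Nat.testBit_mod_two_pow, Nat.testBit_or, Nat.testBit_or] at h
  simp [hc] at h
  exact h.1.1

lemma ok_all {m : ℕ} : ∀ (l : List ℕ) (N : ℕ), (∀ c ∈ l, c < m) → Ok m N l →
    ∀ c ∈ l, N.testBit c = false := by
  intro l
  induction l with
  | nil => intro N _ _ c hc; simp at hc
  | cons a l ih =>
    intro N hl hok c hc
    rcases List.mem_cons.1 hc with rfl | hc
    · exact hok.1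
    · exact stp_mono (hl c (List.mem_cons_of_mem _ hc))
        (ih _ (fun x hx => hl x (List.mem_cons_of_mem _ hx)) hok.2 c hc)

lemma one_shift_testBit {a c : ℕ} (h : c ≠ a) : (1 <<< a : ℕ).testBit c = false := by
  rw [Nat.testBit_shiftLeft]
  by_cases hca : c ≥ a
  · have h1 : (1 : ℕ).testBit (c - a) = false := by
      apply Nat.testBit_lt_two_pow
      exact Nat.one_lt_two_pow (by omega)
    simp [h1]
  · simp [hca]

lemma go_sound {m : ℕ} : ∀ (fuel need A N : ℕ) (L : List ℕ), L.length = need →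
    (∀ c ∈ L, c < m ∧ A.testBit c = true) → L.Pairwise (fun x y => y < x) → Ok m N L →
    go m fuel need A N = true := by
  intro fuel
  induction fuel with
  | zero => intro need A N L _ _ _ _; rfl
  | succ fuel ih =>
    intro need A N L hlen hc hp hok
    cases need with
    | zero => rfl
    | succ need =>
      cases L with
      | nil => simp at hlen
      | cons a l =>
        have hA : A ≠ 0 := by
          rintro rfl
          have := (hc a (by simp)).2
          simp at this
        have hle : ∀ c ∈ (a :: l), c ≤ Nat.log2 A := by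
          intro c hcl
          rw [Nat.le_log2 hA]
          exact Nat.ge_two_pow_of_testBit (hc c hcl).2
        have hbeq : Nat.beq A 0 = false := by
          cases hb : Nat.beq A 0 with
          | false => rfl
          | true => exact absurd (Nat.eq_of_beq_eq_true hb) hA
        unfold go
        rw [hbeq, cond_false]
        have hpc := List.pairwise_cons.1 hp
        by_cases haeq : a = Nat.log2 A
        · -- include
          have hl : ∀ x ∈ l, x < m := fun x hx => (hc x (List.mem_cons_of_mem _ hx)).1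
          have hall := ok_all l _ hl hok.2
          have hinc : go m fuel need ((A ^^^ (1 <<< Nat.log2 A)) ^^^
              ((A ^^^ (1 <<< Nat.log2 A)) &&& stp m N (Nat.log2 A)))
              (stp m N (Nat.log2 A)) = true := by
            rw [← haeq]
            apply ih need _ _ l (by simpa using hlen) _ hpc.2 hok.2
            intro c hcl
            have hca : c ≠ a := (hpc.1 c hcl).ne
            refine ⟨hl c hcl, ?_⟩
            rw [Nat.testBit_xor, Nat.testBit_and, Nat.testBit_xor, one_shift_testBit hca,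
              hall c hcl, (hc c (List.mem_cons_of_mem _ hcl)).2]
            rfl
          rw [hinc, cond_true]
        · -- exclude
          have halt : ∀ c ∈ (a :: l), c ≠ Nat.log2 A := by
            intro c hcl
            have ha := hle a (by simp)
            rcases List.mem_cons.1 hcl with rfl | hcl
            · exact haeq
            · have := hpc.1 c hcl
              omega
          have hexc : go m fuel (need + 1) (A ^^^ (1 <<< Nat.log2 A)) N = true := by
            apply ih (need + 1) _ _ (a :: l) hlen _ hp hok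
            intro c hcl
            refine ⟨(hc c hcl).1, ?_⟩
            rw [Nat.testBit_xor, one_shift_testBit (halt c hcl), (hc c hcl).2]
            rfl
          rw [hexc]
          cases go m fuel need ((A ^^^ (1 <<< Nat.log2 A)) ^^^
              ((A ^^^ (1 <<< Nat.log2 A)) &&& stp m N (Nat.log2 A)))
              (stp m N (Nat.log2 A)) <;> rfl

lemma mask_testBit {p : ℕ → Bool} : ∀ (n c : ℕ), c < n → p c = true → (mask p n).testBit c = true := by
  intro n
  induction n with
  | zero => intro c hc; omega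
  | succ n ih =>
    intro c hc hp
    unfold mask
    by_cases hcn : c = n
    · subst hcn
      rw [if_pos hp, Nat.testBit_or]
      have : (1 <<< c : ℕ).testBit c = true := by
        rw [Nat.testBit_shiftLeft]
        simp
      rw [this, Bool.or_true]
    · have h1 := ih c (by omega) hp
      split_ifs
      · rw [Nat.testBit_or, h1, Bool.true_or]
      · exact h1

/-- every bit of `N` is the negative of a subset sum of `P`. -/
def Rep (m : ℕ) (P : Finset (ZMod m)) (N : ℕ) : Prop :=
  ∀ j, N.testBit j = true → ∃ T ⊆ P, ∑ x ∈ T, x = -(j : ZMod m)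

lemma rep_step {m : ℕ} {P : Finset (ZMod m)} {N a : ℕ} (hN : Rep m P N) (ha : a < m)
    (haP : (a : ZMod m) ∉ P) : Rep m (insert (a : ZMod m) P) (stp m N a) := by
  intro j hj
  unfold stp at hj
  rw [Nat.testBit_mod_two_pow, Nat.testBit_or, Nat.testBit_or] at hj
  rw [Bool.and_eq_true, Bool.or_eq_true, Bool.or_eq_true] at hj
  obtain ⟨_, (h | h) | h⟩ := hj
  · obtain ⟨T, hT, hs⟩ := hN j h
    exact ⟨T, hT.trans (Finset.subset_insert _ _), hs⟩
  · rw [Nat.testBit_shiftRight] at h
    obtain ⟨T, hT, hs⟩ := hN _ h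
    refine ⟨insert (a : ZMod m) T, Finset.insert_subset_insert _ hT, ?_⟩
    rw [Finset.sum_insert (fun h' => haP (hT h')), hs]
    push_cast
    ring
  · rw [Nat.testBit_shiftLeft, Bool.and_eq_true, decide_eq_true_eq] at h
    obtain ⟨hge, h⟩ := h
    obtain ⟨T, hT, hs⟩ := hN _ h
    refine ⟨insert (a : ZMod m) T, Finset.insert_subset_insert _ hT, ?_⟩
    rw [Finset.sum_insert (fun h' => haP (hT h')), hs]
    have h1 : ((j - (m - a) : ℕ) : ZMod m) = (j : ZMod m) + a := by
      rw [Nat.cast_sub hge, Nat.cast_sub ha.le]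
      simp
    rw [h1]
    ring

lemma ok_of_zsf {m : ℕ} {X : Finset (ZMod m)} (hX : ZeroSumFree m X) :
    ∀ (l : List ℕ) (P : Finset (ZMod m)) (N : ℕ), Rep m P N → P ⊆ X →
      (∀ c ∈ l, c < m ∧ (c : ZMod m) ∈ X ∧ (c : ZMod m) ∉ P) →
      l.Pairwise (fun c d : ℕ => (c : ZMod m) ≠ (d : ZMod m)) → Ok m N l := by
  intro l
  induction l with
  | nil => intro _ _ _ _ _ _; trivial
  | cons a l ih =>
    intro P N hN hPX hl hp
    obtain ⟨ha, haX, haP⟩ := hl a (by simp)
    refine ⟨?_, ?_⟩
    · by_contra hcon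
      rw [Bool.not_eq_false] at hcon
      obtain ⟨T, hT, hs⟩ := hN a hcon
      refine hX (insert (a : ZMod m) T) ?_ (Finset.insert_nonempty _ _) ?_
      · exact Finset.insert_subset haX (hT.trans hPX)
      · rw [Finset.sum_insert (fun h' => haP (hT h')), hs]
        ring
    · apply ih (insert (a : ZMod m) P) _ (rep_step hN ha haP) (Finset.insert_subset haX hPX)
      · intro c hc
        obtain ⟨h1, h2, h3⟩ := hl c (List.mem_cons_of_mem _ hc)
        refine ⟨h1, h2, ?_⟩
        rw [Finset.mem_insert]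
        rintro (h | h)
        · exact (List.pairwise_cons.1 hp).1 c hc h.symm
        · exact h3 h
      · exact (List.pairwise_cons.1 hp).2

lemma zsf_zero {m : ℕ} {X : Finset (ZMod m)} (hX : ZeroSumFree m X) : (0 : ZMod m) ∉ X := by
  intro h
  exact hX {0} (by simpa using h) (by simp) (by simp)

lemma search_none {m : ℕ} (hm : 0 < m) {n : ℕ} {p : ℕ → Bool}
    (h : srch m n p = false) (X : Finset (ZMod m)) (hX : ZeroSumFree m X)
    (hp : ∀ c : ℕ, (c : ZMod m) ∈ X → c < m → p c = true) : X.card ≠ n := by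
  have : NeZero m := ⟨hm.ne'⟩
  intro hcard
  classical
  set L0 := (List.range m).filter (fun c : ℕ => decide ((c : ZMod m) ∈ X)) with hL0
  have hmem0 : ∀ c ∈ L0, c < m ∧ (c : ZMod m) ∈ X := by
    intro c hc
    rw [hL0, List.mem_filter] at hc
    exact ⟨List.mem_range.1 hc.1, by simpa using hc.2⟩
  have hinj : ∀ c < m, ∀ d < m, (c : ZMod m) = (d : ZMod m) → c = d := by
    intro c hc d hd hcd
    have := congrArg ZMod.val hcd
    rwa [ZMod.val_cast_of_lt hc, ZMod.val_cast_of_lt hd] at this
  have hnd : L0.Nodup := (List.nodup_range).filter _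
  have hlen : L0.length = n := by
    rw [← hcard, ← List.toFinset_card_of_nodup hnd]
    apply Finset.card_bij (fun (c : ℕ) _ => (c : ZMod m))
    · intro c hc
      exact (hmem0 c (List.mem_toFinset.1 hc)).2
    · intro c hc d hd hcd
      exact hinj c (hmem0 c (List.mem_toFinset.1 hc)).1 d (hmem0 d (List.mem_toFinset.1 hd)).1 hcd
    · intro x hx
      refine ⟨x.val, ?_, ZMod.natCast_zmod_val x⟩
      rw [List.mem_toFinset, hL0, List.mem_filter, List.mem_range]
      exact ⟨ZMod.val_lt x, by simpa using hx⟩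
  have hpw0 : L0.Pairwise (fun x y => x < y) := by
    rw [hL0]
    exact (List.pairwise_lt_range).filter _
  set L := L0.reverse with hL
  have hmem : ∀ c ∈ L, c < m ∧ (c : ZMod m) ∈ X := fun c hc => hmem0 c (List.mem_reverse.1 hc)
  have hpw : L.Pairwise (fun x y => y < x) := by
    rw [hL, List.pairwise_reverse]
    exact hpw0
  have hok : Ok m 1 L := by
    apply ok_of_zsf hX L ∅ 1
    · intro j hj
      have : j = 0 := by
        by_contra hj0
        have h0 : (1 : ℕ).testBit j = false := by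
          apply Nat.testBit_lt_two_pow
          exact Nat.one_lt_two_pow hj0
        rw [h0] at hj
        exact absurd hj (by simp)
      subst this
      exact ⟨∅, by simp, by simp⟩
    · simp
    · intro c hc
      exact ⟨(hmem c hc).1, (hmem c hc).2, by simp⟩
    · apply List.Pairwise.imp_of_mem _ hpw
      intro c d hc hd hdc heq
      have := hinj c (hmem c hc).1 d (hmem d hd).1 heq
      omega
  have hgo := go_sound (m := m) m n (mask (fun c => c != 0 && p c) m) 1 L
    (by rw [hL, List.length_reverse]; exact hlen) (fun c hc => by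
      refine ⟨(hmem c hc).1, mask_testBit m c (hmem c hc).1 ?_⟩
      have h1 : c ≠ 0 := by
        rintro rfl
        exact zsf_zero hX (by simpa using (hmem 0 hc).2)
      simp [h1, hp c (hmem c hc).2 (hmem c hc).1]) hpw hok
  unfold srch at h
  rw [hgo] at h
  exact absurd h (by simp)

/-! ### `k` and `b` -/

lemma zsf_subset {m : ℕ} {S T : Finset (ZMod m)} (h : ZeroSumFree m S) (hT : T ⊆ S) :
    ZeroSumFree m T := fun U hU hne => h U (hU.trans hT) hne

lemma k_bdd {m : ℕ} (hm : 0 < m) :
    BddAbove {n | ∃ S : Finset (ZMod m), ZeroSumFree m S ∧ S.card = n} := by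
  have : NeZero m := ⟨hm.ne'⟩
  refine ⟨m, ?_⟩
  rintro n ⟨S, _, rfl⟩
  calc S.card ≤ (Finset.univ : Finset (ZMod m)).card := Finset.card_le_card (Finset.subset_univ _)
    _ = m := by rw [Finset.card_univ, ZMod.card]

lemma le_k {m : ℕ} (hm : 0 < m) {S : Finset (ZMod m)} (hS : ZeroSumFree m S) : S.card ≤ k m :=
  le_csSup (k_bdd hm) ⟨S, hS, rfl⟩

lemma exists_k {m : ℕ} (hm : 0 < m) : ∃ S : Finset (ZMod m), ZeroSumFree m S ∧ S.card = k m := by
  have : k m ∈ {n | ∃ S : Finset (ZMod m), ZeroSumFree m S ∧ S.card = n} := by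
    apply Nat.sSup_mem _ (k_bdd hm)
    refine ⟨0, ∅, ?_, rfl⟩
    intro T hT hne
    rw [Finset.subset_empty.1 hT] at hne
    exact absurd hne (by simp)
  exact this

lemma k_lt {m : ℕ} (hm : 0 < m) {n : ℕ} (h : srch m n (fun _ => true) = false) :
    k m < n := by
  obtain ⟨S, hS, hc⟩ := exists_k hm
  by_contra hcon
  push Not at hcon
  rw [← hc] at hcon
  obtain ⟨T, hT, hTc⟩ := Finset.exists_subset_card_eq hcon
  exact search_none hm h T (zsf_subset hS hT) (fun _ _ _ => rfl) hTc

lemma le_b_iff (m n : ℕ) : n ≤ b m ↔ (2 * n + 1) ^ 2 ≤ 8 * m + 9 := by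
  unfold b
  have hs : (3 : ℝ) ≤ Real.sqrt (8 * (m : ℝ) + 9) := by
    apply Real.le_sqrt_of_sq_le
    have : (0 : ℝ) ≤ m := Nat.cast_nonneg _
    nlinarith
  rw [Nat.le_floor_iff (by linarith)]
  have h1 : ((n : ℝ) ≤ (-1 + Real.sqrt (8 * (m : ℝ) + 9)) / 2) ↔
      (2 * (n : ℝ) + 1 ≤ Real.sqrt (8 * (m : ℝ) + 9)) := by
    constructor <;> intro h <;> linarith
  rw [h1, Real.le_sqrt' (by positivity)]
  constructor
  · intro h
    exact_mod_cast h
  · intro h
    exact_mod_cast h

lemma b_eq (m : ℕ) : b m = (Nat.sqrt (8 * m + 9) - 1) / 2 := by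
  apply le_antisymm
  · have h := (le_b_iff m (b m)).1 le_rfl
    have h2 : 2 * b m + 1 ≤ Nat.sqrt (8 * m + 9) := Nat.le_sqrt'.2 h
    omega
  · rw [le_b_iff]
    have h3 : 3 ≤ Nat.sqrt (8 * m + 9) := Nat.le_sqrt'.2 (by omega)
    set n := (Nat.sqrt (8 * m + 9) - 1) / 2 with hn
    have h2 : 2 * n + 1 ≤ Nat.sqrt (8 * m + 9) := by omega
    exact Nat.le_sqrt'.1 h2

/-! ### the general realizing set `{1, -2, 3, ..., b}` -/

/-- integer representatives of the set `{1, -2, 3, 4, ..., b}`. -/
def g (i : ℕ) : ℤ := if i = 2 then -2 else (i : ℤ)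

def A (m : ℕ) (n : ℕ) : Finset (ZMod m) := (Finset.Icc 1 n).image (fun i => ((g i : ℤ) : ZMod m))

lemma g_inj {m n : ℕ} (hn : n + 2 < m) : ∀ i ∈ Finset.Icc 1 n, ∀ j ∈ Finset.Icc 1 n,
    ((g i : ℤ) : ZMod m) = ((g j : ℤ) : ZMod m) → i = j := by
  intro i hi j hj h
  rw [Finset.mem_Icc] at hi hj
  have hd : (m : ℤ) ∣ g i - g j := by
    rw [← ZMod.intCast_zmod_eq_zero_iff_dvd]
    push_cast
    rw [h]
    ring
  have habs : |g i - g j| < m := by
    rw [abs_lt]
    unfold g
    split_ifs <;> constructor <;> omega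
  have h0 := Int.eq_zero_of_abs_lt_dvd hd habs
  unfold g at h0
  split_ifs at h0 <;> omega

lemma gauss_sum (n : ℕ) : ∑ i ∈ Finset.Icc 1 n, (i : ℤ) * 2 = n * (n + 1) := by
  induction n with
  | zero => simp
  | succ n ih =>
    rw [Finset.sum_Icc_succ_top (by omega), ih]
    push_cast
    ring

lemma sum_g_bounds {n : ℕ} (hn : 2 ≤ n) (I : Finset ℕ) (hI : I ⊆ Finset.Icc 1 n)
    (hne : I.Nonempty) : ∑ i ∈ I, g i ≠ 0 ∧ -2 ≤ ∑ i ∈ I, g i ∧
      2 * ∑ i ∈ I, g i ≤ n * (n + 1) - 4 := by
  have h2mem : (2 : ℕ) ∈ Finset.Icc 1 n := Finset.mem_Icc.2 ⟨by norm_num, hn⟩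
  -- the part away from 2
  set J := I.erase 2 with hJ
  have hJpos : ∀ i ∈ J, (1 : ℤ) ≤ (i : ℤ) := by
    intro i hi
    have := Finset.mem_Icc.1 (hI (Finset.mem_of_mem_erase hi))
    exact_mod_cast this.1
  have hJg : ∑ i ∈ J, g i = ∑ i ∈ J, (i : ℤ) := by
    apply Finset.sum_congr rfl
    intro i hi
    unfold g
    rw [if_neg (Finset.ne_of_mem_erase hi)]
  have hJnn : 0 ≤ ∑ i ∈ J, (i : ℤ) := Finset.sum_nonneg (fun i hi => by linarith [hJpos i hi])
  have hJle : 2 * ∑ i ∈ J, (i : ℤ) ≤ n * (n + 1) - 4 := by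
    have hsub : J ⊆ (Finset.Icc 1 n).erase 2 := Finset.erase_subset_erase _ hI
    have h1 : ∑ i ∈ J, (i : ℤ) ≤ ∑ i ∈ (Finset.Icc 1 n).erase 2, (i : ℤ) :=
      Finset.sum_le_sum_of_subset_of_nonneg hsub (fun i _ _ => by positivity)
    have h3 := Finset.sum_erase_eq_sub (f := fun i : ℕ => (i : ℤ)) h2mem
    have h4 := gauss_sum n
    rw [← Finset.sum_mul] at h4
    push_cast at h3
    linarith
  by_cases h2 : 2 ∈ I
  · have hsum : ∑ i ∈ I, g i = -2 + ∑ i ∈ J, (i : ℤ) := by
      rw [← Finset.add_sum_erase I g h2, ← hJ, hJg]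
      rfl
    refine ⟨?_, by linarith, by linarith⟩
    intro h0
    rw [hsum] at h0
    have hval : ∑ i ∈ J, (i : ℤ) = 2 := by linarith
    -- every element of `J` is `1`
    have hone : ∀ i ∈ J, i = 1 := by
      intro i hi
      have hle : (i : ℤ) ≤ 2 := by
        rw [← hval]
        exact Finset.single_le_sum (f := fun i : ℕ => (i : ℤ)) (fun j _ => by positivity) hi
      have hge := hJpos i hi
      have hne2 := Finset.ne_of_mem_erase hi
      have : i ≤ 2 := by exact_mod_cast hle
      have : 1 ≤ i := by exact_mod_cast hge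
      omega
    have hsub : J ⊆ {1} := fun i hi => Finset.mem_singleton.2 (hone i hi)
    have : ∑ i ∈ J, (i : ℤ) ≤ ∑ i ∈ ({1} : Finset ℕ), (i : ℤ) :=
      Finset.sum_le_sum_of_subset_of_nonneg hsub (fun i _ _ => by positivity)
    simp at this
    linarith
  · have hIJ : J = I := Finset.erase_eq_of_notMem h2
    have hsum : ∑ i ∈ I, g i = ∑ i ∈ J, (i : ℤ) := by
      rw [← hJg, hIJ]
    refine ⟨?_, by linarith, by linarith⟩
    rw [hsum]
    obtain ⟨i, hi⟩ := hne
    have hi' : i ∈ J := by rw [hIJ]; exact hi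
    have h1 : (i : ℤ) ≤ ∑ i ∈ J, (i : ℤ) :=
      Finset.single_le_sum (f := fun i : ℕ => (i : ℤ)) (fun j _ => by positivity) hi'
    have := hJpos i hi'
    linarith

lemma A_card {m n : ℕ} (hn : n + 2 < m) : (A m n).card = n := by
  unfold A
  rw [Finset.card_image_of_injOn]
  · simp
  · intro i hi j hj h
    exact g_inj hn i (by simpa using hi) j (by simpa using hj) h

lemma A_zsf {m n : ℕ} (h2 : 2 ≤ n) (hn : n + 2 < m) (hb : n * (n + 1) ≤ 2 * (m + 1)) :
    ZeroSumFree m (A m n) := by
  classical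
  intro T hT hne h0
  set I := (Finset.Icc 1 n).filter (fun i => ((g i : ℤ) : ZMod m) ∈ T) with hI
  have hIsub : I ⊆ Finset.Icc 1 n := Finset.filter_subset _ _
  have himg : T = I.image (fun i => ((g i : ℤ) : ZMod m)) := by
    ext x
    rw [Finset.mem_image]
    constructor
    · intro hx
      obtain ⟨i, hi, rfl⟩ := Finset.mem_image.1 (hT hx)
      exact ⟨i, Finset.mem_filter.2 ⟨hi, hx⟩, rfl⟩
    · rintro ⟨i, hi, rfl⟩
      exact (Finset.mem_filter.1 hi).2
  have hInj : Set.InjOn (fun i => ((g i : ℤ) : ZMod m)) (I : Set ℕ) := by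
    intro i hi j hj h
    exact g_inj hn i (hIsub hi) j (hIsub hj) h
  have hIne : I.Nonempty := by
    rw [himg] at hne
    exact Finset.image_nonempty.1 hne
  have hsum : ∑ x ∈ T, x = ((∑ i ∈ I, g i : ℤ) : ZMod m) := by
    rw [himg, Finset.sum_image hInj]
    push_cast
    rfl
  obtain ⟨hs0, hs1, hs2⟩ := sum_g_bounds h2 I hIsub hIne
  rw [hsum, ZMod.intCast_zmod_eq_zero_iff_dvd] at h0
  apply hs0
  apply Int.eq_zero_of_abs_lt_dvd h0
  have hb' : (n : ℤ) * (n + 1) ≤ 2 * (m + 1) := by exact_mod_cast hb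
  rw [abs_lt]
  constructor <;> [skip; skip]
  · have : (4 : ℤ) < m := by omega
    linarith
  · linarith

lemma b_bounds {m : ℕ} (hm : 6 ≤ m) : 2 ≤ b m ∧ b m + 2 < m ∧ b m * (b m + 1) ≤ 2 * (m + 1) := by
  have h := (le_b_iff m (b m)).1 le_rfl
  have h2 : 2 ≤ b m := (le_b_iff m 2).2 (by omega)
  refine ⟨h2, ?_, ?_⟩
  · by_contra hcon
    push Not at hcon
    rcases Nat.lt_or_ge (b m) 4 with h4 | h4
    · have : b m = 2 ∨ b m = 3 := by omega
      rcases this with h5 | h5
      · omega
      · omega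
    · nlinarith
  · nlinarith

/-! ### finite part -/

def chk (m n : ℕ) : Bool :=
  decide ((2 * n + 1) ^ 2 ≤ 8 * m + 9) && decide (8 * m + 9 < (2 * n + 3) ^ 2) &&
    !(srch m n (fun c => Nat.gcd c m != 1))

lemma b_of {m n : ℕ} (h1 : (2 * n + 1) ^ 2 ≤ 8 * m + 9) (h2 : 8 * m + 9 < (2 * n + 3) ^ 2) :
    b m = n := by
  apply le_antisymm
  · by_contra hcon
    push Not at hcon
    have h3 := (le_b_iff m (n + 1)).1 hcon
    have : (2 * (n + 1) + 1) ^ 2 = (2 * n + 3) ^ 2 := by ring
    omega
  · exact (le_b_iff m n).2 h1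

set_option maxRecDepth 100000 in
theorem table0 : ∀ m ∈ List.range 41, (m < 5 ∨ m = 12 ∨ m = 18 ∨ m = 24 ∨ m = 30)
    ∨ ∃ n ∈ List.range 10, chk m n = true := by
  decide +kernel

set_option maxRecDepth 100000 in
theorem s5 : srch 5 3 (fun _ => true) = false := by decide +kernel

set_option maxRecDepth 100000 in
theorem s12 : srch 12 5 (fun _ => true) = false := by decide +kernel

set_option maxRecDepth 100000 in
theorem s18 : srch 18 6 (fun _ => true) = false := by decide +kernel

set_option maxRecDepth 100000 in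
theorem s24 : srch 24 7 (fun _ => true) = false := by decide +kernel

set_option maxRecDepth 100000 in
theorem s30 : srch 30 8 (fun _ => true) = false := by decide +kernel

/-- the set of residues given by a list of representatives. -/
def res (m : ℕ) (L : List ℕ) : Finset (ZMod m) := L.toFinset.image (fun c : ℕ => (c : ZMod m))

lemma zsf_of_list {m : ℕ} (L : List ℕ) (hnd : L.Nodup) (hlt : ∀ c ∈ L, c < m)
    (h : ∀ T ∈ L.sublists, T ≠ [] → T.sum % m ≠ 0) : ZeroSumFree m (res m L) := by
  classical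
  intro T hT hne h0
  have hinj : ∀ c < m, ∀ d < m, (c : ZMod m) = (d : ZMod m) → c = d := by
    intro c hc d hd hcd
    have := congrArg ZMod.val hcd
    rwa [ZMod.val_cast_of_lt hc, ZMod.val_cast_of_lt hd] at this
  set F := L.filter (fun c : ℕ => decide ((c : ZMod m) ∈ T)) with hF
  have hFsub : F.Sublist L := List.filter_sublist
  have hFnd : F.Nodup := hnd.sublist hFsub
  have hTF : T = F.toFinset.image (fun c : ℕ => (c : ZMod m)) := by
    ext x
    rw [Finset.mem_image]
    constructor
    · intro hx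
      obtain ⟨c, hc, rfl⟩ := Finset.mem_image.1 (hT hx)
      refine ⟨c, ?_, rfl⟩
      rw [List.mem_toFinset, hF, List.mem_filter]
      exact ⟨List.mem_toFinset.1 hc, by simpa using hx⟩
    · rintro ⟨c, hc, rfl⟩
      rw [List.mem_toFinset, hF, List.mem_filter] at hc
      simpa using hc.2
  have hsum : ∑ x ∈ T, x = ((F.sum : ℕ) : ZMod m) := by
    rw [hTF, Finset.sum_image, List.sum_toFinset _ hFnd]
    · rw [Nat.cast_list_sum]
    · intro c hc d hd hcd
      have hc' := hFsub.subset (List.mem_toFinset.1 hc)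
      have hd' := hFsub.subset (List.mem_toFinset.1 hd)
      exact hinj c (hlt c hc') d (hlt d hd') hcd
  have hFne : F ≠ [] := by
    intro hnil
    rw [hTF, hnil] at hne
    simp at hne
  rw [hsum, ZMod.natCast_eq_zero_iff] at h0
  exact h F (List.mem_sublists.2 hFsub) hFne (Nat.mod_eq_zero_of_dvd h0)

lemma res_card {m : ℕ} (L : List ℕ) (hnd : L.Nodup) (hlt : ∀ c ∈ L, c < m) :
    (res m L).card = L.length := by
  unfold res
  rw [Finset.card_image_of_injOn, List.toFinset_card_of_nodup hnd]
  intro c hc d hd hcd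
  have hc' : c < m := hlt c (by simpa using hc)
  have hd' : d < m := hlt d (by simpa using hd)
  have := congrArg ZMod.val hcd
  rwa [ZMod.val_cast_of_lt hc', ZMod.val_cast_of_lt hd'] at this

lemma good_of {m n : ℕ} (hm : 5 ≤ m) (hb1 : (2 * n + 1) ^ 2 ≤ 8 * m + 9)
    (hb2 : 8 * m + 9 < (2 * n + 3) ^ 2)
    (hs : srch m (n + 1) (fun _ => true) = false) (L : List ℕ) (hnd : L.Nodup)
    (hlt : ∀ c ∈ L, c < m) (h : ∀ T ∈ L.sublists, T ≠ [] → T.sum % m ≠ 0)
    (hc : L.length = n) (hcop : ∀ c ∈ L, Nat.gcd c m ≠ 1) :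
    m ∈ E ∧ ∃ S : Finset (ZMod m), Realizing m S ∧ ∀ a ∈ S, ¬ Nat.Coprime a.val m := by
  have hS := zsf_of_list L hnd hlt h
  have hcard := res_card L hnd hlt
  have hk : k m = n := by
    have h1 := k_lt (by omega : 0 < m) hs
    have h2 := le_k (by omega : 0 < m) hS
    omega
  refine ⟨⟨hm, by rw [hk, b_of hb1 hb2]⟩, res m L, ⟨hS, by rw [hcard, hc, hk]⟩, ?_⟩
  intro a ha hco
  obtain ⟨c, hc', rfl⟩ := Finset.mem_image.1 ha
  have hcL := List.mem_toFinset.1 hc'
  rw [ZMod.val_cast_of_lt (hlt c hcL)] at hco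
  exact hcop c hcL hco

/-! ### a criterion covering infinitely many `m` -/

lemma card_unit (m : ℕ) [NeZero m] :
    ((Finset.univ : Finset (ZMod m)).filter (fun a => Nat.Coprime a.val m)).card =
      Nat.totient m := by
  unfold Nat.totient
  apply Finset.card_bij (fun (a : ZMod m) _ => a.val)
  · intro a ha
    rw [Finset.mem_filter] at ha ⊢
    exact ⟨Finset.mem_range.2 (ZMod.val_lt a), ha.2.symm⟩
  · intro a _ c _ h
    exact ZMod.val_injective m h
  · intro c hc
    rw [Finset.mem_filter, Finset.mem_range] at hc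
    refine ⟨(c : ZMod m), ?_, ZMod.val_cast_of_lt hc.1⟩
    rw [Finset.mem_filter, ZMod.val_cast_of_lt hc.1]
    exact ⟨Finset.mem_univ _, hc.2.symm⟩

lemma two_card_le {m : ℕ} (hm : 2 ≤ m) {S : Finset (ZMod m)} (hS : ZeroSumFree m S)
    (hcop : ∀ a ∈ S, ¬ Nat.Coprime a.val m) : 2 * S.card ≤ m - Nat.totient m := by
  classical
  have : NeZero m := ⟨by omega⟩
  set N := S.image (fun a => -a) with hN
  have hNcard : N.card = S.card := Finset.card_image_of_injective _ neg_injective
  have h0S := zsf_zero hS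
  -- elements of the intersection are equal to their negatives
  have hint : ∀ a ∈ S ∩ N, a + a = 0 ∧ a ≠ 0 := by
    intro a ha
    rw [Finset.mem_inter] at ha
    obtain ⟨c, hc, hca⟩ := Finset.mem_image.1 ha.2
    have ha0 : a ≠ 0 := by
      rintro rfl
      exact h0S ha.1
    refine ⟨?_, ha0⟩
    by_cases hac : a = c
    · subst hac
      have : -a = a := hca
      calc a + a = a + -a := by rw [this]
        _ = 0 := by ring
    · exfalso
      apply hS {a, c}
      · intro x hx
        rw [Finset.mem_insert, Finset.mem_singleton] at hx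
        rcases hx with rfl | rfl
        · exact ha.1
        · exact hc
      · exact ⟨a, by simp⟩
      · rw [Finset.sum_pair hac, ← hca]
        ring
  have hval : ∀ a ∈ S ∩ N, a.val + a.val = m := by
    intro a ha
    obtain ⟨h1, h2⟩ := hint a ha
    have h3 : ((a.val + a.val : ℕ) : ZMod m) = 0 := by
      push_cast
      rw [ZMod.natCast_zmod_val]
      exact h1
    rw [ZMod.natCast_eq_zero_iff] at h3
    have h4 := ZMod.val_lt a
    have h5 : a.val ≠ 0 := fun h => h2 ((ZMod.val_eq_zero a).1 h)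
    obtain ⟨q, hq⟩ := h3
    have : q = 1 := by
      rcases Nat.lt_trichotomy q 1 with h | h | h
      · have : q = 0 := by omega
        subst this
        omega
      · exact h
      · have : m * 2 ≤ m * q := Nat.mul_le_mul_left m h
        omega
    rw [hq, this, mul_one]
  have hle1 : (S ∩ N).card ≤ 1 := by
    rw [Finset.card_le_one]
    intro a ha c hc
    apply ZMod.val_injective m
    have := hval a ha
    have := hval c hc
    omega
  have hunion := Finset.card_union_add_card_inter S N
  -- the union avoids `0` and the units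
  have hval_neg : ∀ a : ZMod m, a ≠ 0 → (-a).val = m - a.val := by
    intro a ha
    rw [ZMod.neg_val, if_neg ha]
  have hsub : S ∪ N ⊆ ((Finset.univ : Finset (ZMod m)).filter
      (fun a => ¬ Nat.Coprime a.val m)).erase 0 := by
    intro x hx
    rw [Finset.mem_erase, Finset.mem_filter]
    rw [Finset.mem_union] at hx
    rcases hx with hx | hx
    · exact ⟨fun h => h0S (h ▸ hx), Finset.mem_univ _, hcop x hx⟩
    · obtain ⟨c, hc, rfl⟩ := Finset.mem_image.1 hx
      have hc0 : c ≠ 0 := fun h => h0S (h ▸ hc)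
      refine ⟨fun h => hc0 (neg_eq_zero.1 h), Finset.mem_univ _, ?_⟩
      rw [hval_neg c hc0]
      intro hco
      apply hcop c hc
      have hlt := (ZMod.val_lt c).le
      have : Nat.gcd (m - c.val) m = Nat.gcd c.val m := by
        rw [Nat.gcd_self_sub_left hlt]
      unfold Nat.Coprime at hco ⊢
      rw [← this]
      exact hco
  have h0mem : (0 : ZMod m) ∈ (Finset.univ : Finset (ZMod m)).filter
      (fun a => ¬ Nat.Coprime a.val m) := by
    rw [Finset.mem_filter, ZMod.val_zero]
    refine ⟨Finset.mem_univ _, ?_⟩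
    rw [Nat.coprime_zero_left]
    omega
  have hcard := Finset.card_le_card hsub
  rw [Finset.card_erase_of_mem h0mem] at hcard
  have htot := Finset.card_filter_add_card_filter_not (s := (Finset.univ : Finset (ZMod m)))
    (fun a => Nat.Coprime a.val m)
  rw [card_unit, Finset.card_univ, ZMod.card] at htot
  have hpos : 0 < ((Finset.univ : Finset (ZMod m)).filter
      (fun a => ¬ Nat.Coprime a.val m)).card := Finset.card_pos.2 ⟨0, h0mem⟩
  omega

/-- **Main theorem.**
(1) (Q2) every `m ∈ E` has a realizing set containing an element coprime to `m`; explicitly, the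
set `{1, -2, 3, 4, ..., b(m)}` is realizing for every `m ∈ E`.
(2) (Q1, all `m ≤ 40`) an `m` with `5 ≤ m ≤ 40` lies in `E` and has a realizing set none of whose
elements is coprime to `m` exactly when `m` is `12`, `18`, `24` or `30`.
(3) (Q1, infinitely many `m`) if `m - φ(m) < 2 b(m)` then no realizing set for `m ∈ E` consists
only of elements not coprime to `m`; in particular this holds for `m = p ^ 2`, `p` prime. -/
theorem result :
    (∀ m ∈ E, ∃ S : Finset (ZMod m), Realizing m S ∧ ∃ a ∈ S, Nat.Coprime a.val m) ∧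
    (∀ m ∈ E, Realizing m ((Finset.Icc 1 (b m)).image
      (fun i : ℕ => if i = 2 then (-2 : ZMod m) else (i : ZMod m)))) ∧
    (∀ m, 5 ≤ m → m ≤ 40 →
      ((m ∈ E ∧ ∃ S : Finset (ZMod m), Realizing m S ∧ ∀ a ∈ S, ¬ Nat.Coprime a.val m) ↔
        m = 12 ∨ m = 18 ∨ m = 24 ∨ m = 30)) ∧
    (∀ m ∈ E, m - Nat.totient m < 2 * b m →
      ¬ ∃ S : Finset (ZMod m), Realizing m S ∧ ∀ a ∈ S, ¬ Nat.Coprime a.val m) ∧
    (∀ p : ℕ, p.Prime → p ^ 2 - Nat.totient (p ^ 2) < 2 * b (p ^ 2)) := by
  have h6 : ∀ m ∈ E, 6 ≤ m := by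
    intro m hm
    have h5 := hm.1
    rcases Nat.eq_or_lt_of_le h5 with h | h
    · exfalso
      subst h
      have h1 := k_lt (by norm_num : 0 < 5) s5
      have h2 : b 5 = 3 := b_of (by norm_num) (by norm_num)
      have h3 := hm.2
      omega
    · exact h
  have hreal : ∀ m ∈ E, Realizing m (A m (b m)) := by
    intro m hm
    obtain ⟨h2, h3, h4⟩ := b_bounds (h6 m hm)
    exact ⟨A_zsf h2 h3 h4, by rw [A_card h3, hm.2]⟩
  refine ⟨?_, ?_, ?_, ?_, ?_⟩
  · intro m hm
    have hm6 := h6 m hm
    refine ⟨A m (b m), hreal m hm, 1, ?_, ?_⟩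
    · unfold A
      rw [Finset.mem_image]
      obtain ⟨h2, _, _⟩ := b_bounds hm6
      refine ⟨1, Finset.mem_Icc.2 ⟨le_rfl, by omega⟩, ?_⟩
      simp [g]
    · have : Fact (1 < m) := ⟨by omega⟩
      rw [ZMod.val_one]
      exact Nat.coprime_one_left m
  · intro m hm
    have h := hreal m hm
    have heq : A m (b m) = (Finset.Icc 1 (b m)).image
        (fun i : ℕ => if i = 2 then (-2 : ZMod m) else (i : ZMod m)) := by
      unfold A
      congr 1
      funext i
      unfold g
      split_ifs <;> push_cast <;> rfl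
    rw [heq] at h
    exact h
  · intro m h5 h40
    constructor
    · rintro ⟨hE, S, hS, hcop⟩
      by_contra hcon
      have hm0 : 0 < m := by omega
      rcases table0 m (List.mem_range.2 (by omega)) with h | ⟨n, _, hn⟩
      · rcases h with h | h | h | h | h
        · omega
        · exact absurd (Or.inl h) hcon
        · exact absurd (Or.inr (Or.inl h)) hcon
        · exact absurd (Or.inr (Or.inr (Or.inl h))) hcon
        · exact absurd (Or.inr (Or.inr (Or.inr h))) hcon
      · unfold chk at hn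
        rw [Bool.and_eq_true, Bool.and_eq_true, decide_eq_true_eq, decide_eq_true_eq,
          Bool.not_eq_true'] at hn
        obtain ⟨⟨hb1, hb2⟩, hs⟩ := hn
        have hb := b_of hb1 hb2
        have hcard : S.card = n := by rw [hS.2, hE.2, hb]
        refine search_none hm0 hs S hS.1 ?_ hcard
        intro c hc hcm
        have h := hcop _ hc
        rw [ZMod.val_cast_of_lt hcm] at h
        simpa [Nat.Coprime] using h
    · rintro (h | h | h | h)
      · subst h
        exact good_of (n := 4) (by norm_num) (by norm_num) (by norm_num) s12 [3, 4, 6, 10]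
          (by decide +kernel) (by decide +kernel) (by decide +kernel) rfl (by decide +kernel)
      · subst h
        exact good_of (n := 5) (by norm_num) (by norm_num) (by norm_num) s18 [2, 3, 6, 8, 14]
          (by decide +kernel) (by decide +kernel) (by decide +kernel) rfl (by decide +kernel)
      · subst h
        exact good_of (n := 6) (by norm_num) (by norm_num) (by norm_num) s24 [2, 6, 8, 9, 20, 21]
          (by decide +kernel) (by decide +kernel) (by decide +kernel) rfl (by decide +kernel)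
      · subst h
        exact good_of (n := 7) (by norm_num) (by norm_num) (by norm_num) s30
          [2, 5, 12, 15, 20, 22, 27]
          (by decide +kernel) (by decide +kernel) (by decide +kernel) rfl (by decide +kernel)
  · rintro m hm hlt ⟨S, hS, hcop⟩
    have hm6 := h6 m hm
    have h1 := two_card_le (by omega) hS.1 hcop
    rw [hS.2, hm.2] at h1
    omega
  · intro p hp
    have hp2 := hp.two_le
    have h1 : p ^ 2 - Nat.totient (p ^ 2) = p := by
      rw [Nat.totient_prime_pow hp (by norm_num)]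
      obtain ⟨q, rfl⟩ : ∃ q, p = q + 1 := ⟨p - 1, by omega⟩
      have : (q + 1) ^ 2 = (q + 1) ^ (2 - 1) * (q + 1 - 1) + (q + 1) := by
        simp
        ring
      omega
    rw [h1]
    have h2 : p / 2 + 1 ≤ b (p ^ 2) := by
      rw [le_b_iff]
      have h3 : 2 * (p / 2 + 1) + 1 ≤ p + 3 := by omega
      calc (2 * (p / 2 + 1) + 1) ^ 2 ≤ (p + 3) ^ 2 := Nat.pow_le_pow_left h3 2
        _ ≤ 8 * p ^ 2 + 9 := by nlinarith
    omega

end Pool.Agent.Results.MP_a37b83_nt.UnitRealizers
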